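import Pool.Agent.Q40.OD.Stm2

/-! Project OD (helper40), job EK-5 (helper56): dimension counts for the forms with a (degenerate)
singular point. -/

set_option autoImplicit false

namespace Pool.Agent.Q56.OD

open Pool.Agent.Q40.OD Pool.Agent.TH214.RM Pool.Agent.H918R2.Quad MvPolynomial

theorem algInd_aux {κ ι A : Type} [Finite κ] [Finite ι] [CommRing A] [IsDomain A] [Algebra ℚ A]
    (z : κ → A) (y : ι → A) (hy : AlgebraicIndependent ℚ y)
    (hz : Algebra.adjoin ℚ (Set.range z) = ⊤) (hcard : Nat.card κ ≤ Nat.card ι) :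
    AlgebraicIndependent ℚ z := by
  have halg : Algebra.IsAlgebraic (Algebra.adjoin ℚ (Set.range z)) A := by
    refine ⟨fun a => ?_⟩
    have ha : a ∈ Algebra.adjoin ℚ (Set.range z) := by rw [hz]; exact Algebra.mem_top
    exact isAlgebraic_algebraMap (⟨a, ha⟩ : Algebra.adjoin ℚ (Set.range z))
  have hle : Cardinal.mk κ ≤ Algebra.trdeg ℚ A := by
    refine le_trans ?_ hy.cardinalMk_le_trdeg
    have := Fintype.ofFinite κ
    have := Fintype.ofFinite ι
    rw [Nat.card_eq_fintype_card, Nat.card_eq_fintype_card] at hcard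
    obtain ⟨f⟩ := Function.Embedding.nonempty_of_card_le hcard
    exact Cardinal.mk_le_of_injective f.injective
  have hff : FaithfulSMul ℚ A :=
    (faithfulSMul_iff_algebraMap_injective ℚ A).2 (algebraMap ℚ A).injective
  exact (Algebra.IsAlgebraic.isTranscendenceBasis_of_le_trdeg_of_finite ℚ z hle).1

theorem algInd_of_card {κ ι Λ : Type} [Finite κ] [Finite ι] [Field Λ] [Algebra ℚ Λ] (z : κ → Λ)
    (y : ι → Λ) (hy : AlgebraicIndependent ℚ y)
    (hmem : ∀ i, y i ∈ Algebra.adjoin ℚ (Set.range z)) (hcard : Nat.card κ ≤ Nat.card ι) :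
    AlgebraicIndependent ℚ z := by
  obtain ⟨A, hA⟩ : ∃ A : Subalgebra ℚ Λ, A = Algebra.adjoin ℚ (Set.range z) := ⟨_, rfl⟩
  have hmem' : ∀ i, y i ∈ A := fun i => by rw [hA]; exact hmem i
  have hz0 : ∀ k, z k ∈ A := fun k => by rw [hA]; exact Algebra.subset_adjoin ⟨k, rfl⟩
  have hinj : Function.Injective A.val := Subtype.val_injective
  have e1 : (A.val ∘ fun i => (⟨y i, hmem' i⟩ : A)) = y := rfl
  have e2 : (A.val ∘ fun k => (⟨z k, hz0 k⟩ : A)) = z := rfl
  have hy' : AlgebraicIndependent ℚ (fun i => (⟨y i, hmem' i⟩ : A)) := by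
    rw [← A.val.algebraicIndependent_iff hinj, e1]
    exact hy
  have hz' : Algebra.adjoin ℚ (Set.range (fun k => (⟨z k, hz0 k⟩ : A))) = ⊤ := by
    apply Subalgebra.map_injective hinj
    rw [AlgHom.map_adjoin, ← Set.range_comp, Algebra.map_top, Subalgebra.range_val, e2]
    exact hA.symm
  have h := algInd_aux _ _ hy' hz' hcard
  rw [← A.val.algebraicIndependent_iff hinj, e2] at h
  exact h

section tr

variable {σ R R' : Type} [CommRing R] [CommRing R']

/-- translation -/
noncomputable def tr (P : σ → R) : MvPolynomial σ R →ₐ[R] MvPolynomial σ R :=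
  aeval fun j => X j + C (P j)

theorem tr_X (P : σ → R) (j : σ) : tr P (X j) = X j + C (P j) := aeval_X _ _

theorem tr_C (P : σ → R) (a : R) : tr P (C a) = C a := by
  unfold tr
  rw [aeval_C]
  rfl

theorem pderiv_tr (P : σ → R) (b : σ) (f : MvPolynomial σ R) :
    pderiv b (tr P f) = tr P (pderiv b f) := by
  classical
  induction f using MvPolynomial.induction_on with
  | C a => rw [tr_C, pderiv_C, map_zero]
  | add p q hp hq => rw [map_add, map_add, map_add, map_add, hp, hq]
  | mul_X p i hp =>
    rw [map_mul, tr_X, Derivation.leibniz, Derivation.leibniz, hp]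
    simp only [smul_eq_mul, map_add, map_mul, tr_X, pderiv_C, add_zero]
    congr 1
    by_cases h : i = b
    · subst h
      rw [pderiv_X_self, map_one]
    · rw [pderiv_X_of_ne h, map_zero]

theorem eval_zero_tr (P : σ → R) (f : MvPolynomial σ R) :
    coeff 0 (tr P f) = eval P f := by
  induction f using MvPolynomial.induction_on with
  | C a => rw [tr_C, coeff_zero_C, eval_C]
  | add p q hp hq => rw [map_add, map_add, coeff_add, hp, hq]
  | mul_X p i hp =>
    rw [map_mul, map_mul, tr_X, eval_X, ← hp]
    change constantCoeff (tr P p * (X i + C (P i))) = constantCoeff (tr P p) * P i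
    rw [map_mul, map_add, constantCoeff_X, constantCoeff_C, zero_add]

theorem tr_neg_tr (P : σ → R) (f : MvPolynomial σ R) : tr (fun j => -P j) (tr P f) = f := by
  induction f using MvPolynomial.induction_on with
  | C a => rw [tr_C, tr_C]
  | add p q hp hq => rw [map_add, map_add, hp, hq]
  | mul_X p i hp =>
    rw [map_mul, map_mul, hp, tr_X, map_add, tr_X, tr_C, C_neg, neg_add_cancel_right]

theorem map_tr (φ : R →+* R') (P : σ → R) (f : MvPolynomial σ R) :
    map φ (tr P f) = tr (fun j => φ (P j)) (map φ f) := by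
  induction f using MvPolynomial.induction_on with
  | C a => rw [tr_C, map_C, tr_C]
  | add p q hp hq => rw [map_add, map_add, map_add, map_add, hp, hq]
  | mul_X p i hp =>
    rw [map_mul, map_mul, map_mul, map_mul, hp, tr_X, map_X, tr_X, map_add, map_X, map_C]

theorem totalDegree_tr_le [Nontrivial R] (P : σ → R) (f : MvPolynomial σ R) :
    (tr P f).totalDegree ≤ f.totalDegree := by
  classical
  unfold tr
  rw [aeval_def, eval₂_eq]
  refine totalDegree_finsetSum_le fun m hm => ?_
  refine (totalDegree_mul _ _).trans ?_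
  have h1 : (algebraMap R (MvPolynomial σ R) (coeff m f)).totalDegree = 0 := totalDegree_C _
  rw [h1, zero_add]
  refine (totalDegree_finsetProd _ _).trans ?_
  refine le_trans ?_ (le_totalDegree hm)
  refine Finset.sum_le_sum fun i _ => ?_
  refine (totalDegree_pow _ _).trans ?_
  have h2 : (X i + C (P i) : MvPolynomial σ R).totalDegree ≤ 1 := by
    refine (totalDegree_add _ _).trans ?_
    rw [totalDegree_X, totalDegree_C]
    exact le_rfl
  calc m i * (X i + C (P i) : MvPolynomial σ R).totalDegree ≤ m i * 1 :=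
        Nat.mul_le_mul_left _ h2
    _ = m i := mul_one _

end tr

/-- the coefficients stay in a subring -/
theorem coeff_tr_mem {σ K : Type} [Field K] [Algebra ℚ K] (A : Subalgebra ℚ K)
    (P : σ → K) (hP : ∀ j, P j ∈ A) (f : MvPolynomial σ K) (hf : ∀ m, coeff m f ∈ A)
    (m : σ →₀ ℕ) : coeff m (tr P f) ∈ A := by
  classical
  let f' : MvPolynomial σ A := ∑ m ∈ f.support, monomial m (⟨coeff m f, hf m⟩ : A)
  have h1 : map (algebraMap A K) f' = f := by
    simp only [f', map_sum, map_monomial]
    exact (f.as_sum).symm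
  have h2 : tr P f = map (algebraMap A K) (tr (fun j => (⟨P j, hP j⟩ : A)) f') := by
    rw [map_tr, h1]
    rfl
  rw [h2, coeff_map]
  exact (coeff m (tr (fun j => (⟨P j, hP j⟩ : A)) f')).2

section res

variable {n d : ℕ} (s : Fin (n + 2))

/-- restriction of exponents to the chart -/
noncomputable def res (α : Fin (n + 2) →₀ ℕ) : {j : Fin (n + 2) // j ≠ s} →₀ ℕ :=
  α.subtypeDomain (fun j => j ≠ s)

theorem res_apply (α : Fin (n + 2) →₀ ℕ) (j : {j : Fin (n + 2) // j ≠ s}) :
    res s α j = α j := rfl

theorem degree_eq (α : Fin (n + 2) →₀ ℕ) : α.degree = α s + (res s α).degree := by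
  rw [Finsupp.degree_eq_sum, Finsupp.degree_eq_sum]
  rw [Fintype.sum_eq_add_sum_subtype_ne _ s]
  rfl

theorem res_inj {α β : Ix n d} (h : res s α.1 = res s β.1) : α = β := by
  apply Subtype.ext
  apply Finsupp.ext
  intro j
  by_cases hj : j = s
  · have h1 := degree_eq s α.1
    have h2 := degree_eq s β.1
    rw [α.2] at h1
    rw [β.2, ← h] at h2
    rw [hj]
    omega
  · have := DFunLike.congr_fun h ⟨j, hj⟩
    exact this

/-- the inverse of `res` -/
noncomputable def ext (d : ℕ) (s : Fin (n + 2)) (β : {j : Fin (n + 2) // j ≠ s} →₀ ℕ) :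
    Fin (n + 2) →₀ ℕ :=
  Finsupp.equivFunOnFinite.symm fun j => if h : j = s then d - β.degree else β ⟨j, h⟩

theorem ext_self (β : {j : Fin (n + 2) // j ≠ s} →₀ ℕ) : ext d s β s = d - β.degree := by
  simp [ext]

theorem res_ext (β : {j : Fin (n + 2) // j ≠ s} →₀ ℕ) : res s (ext d s β) = β := by
  apply Finsupp.ext
  intro j
  rw [res_apply]
  simp only [ext, Finsupp.equivFunOnFinite_symm_apply_apply, dif_neg j.2]

theorem degree_ext (β : {j : Fin (n + 2) // j ≠ s} →₀ ℕ) (h : β.degree ≤ d) :
    (ext d s β).degree = d := by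
  rw [degree_eq s, ext_self, res_ext]
  omega

theorem deh_monomial {R : Type} [CommRing R] (α : Fin (n + 2) →₀ ℕ) (a : R) :
    deh s (monomial α a) = monomial (res s α) a := by
  unfold deh
  rw [aeval_monomial, monomial_eq]
  congr 1
  rw [Finsupp.prod_fintype _ _ (fun _ => pow_zero _), Finsupp.prod_fintype _ _ (fun _ => pow_zero _),
    Fintype.prod_eq_mul_prod_subtype_ne _ s]
  have h1 : tau (R := R) s s = 1 := by
    unfold tau
    rw [dif_pos rfl]
  rw [h1, one_pow, one_mul]
  refine Finset.prod_congr rfl fun j _ => ?_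
  have h2 : tau (R := R) s (j : Fin (n + 2)) = X j := by
    unfold tau
    rw [dif_neg j.2]
  rw [h2, res_apply]

theorem deh_form {R : Type} [CommRing R] (c : Ix n d → R) :
    deh s (form n d c) = ∑ α, monomial (res s α.1) (c α) := by
  unfold form
  have h : ∀ t : Finset (Ix n d), deh s (∑ α ∈ t, monomial α.1 (c α)) =
      ∑ α ∈ t, monomial (res s α.1) (c α) := by
    intro t
    unfold deh
    rw [map_sum]
    exact Finset.sum_congr rfl fun α _ => deh_monomial s α.1 (c α)
  exact h _

theorem coeff_deh_form {R : Type} [CommRing R] (c : Ix n d → R) (α : Ix n d) :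
    coeff (res s α.1) (deh s (form n d c)) = c α := by
  classical
  rw [deh_form, coeff_sum, Finset.sum_eq_single α]
  · rw [coeff_monomial, if_pos rfl]
  · intro β _ hne
    rw [coeff_monomial, if_neg]
    exact fun h => hne (res_inj s h)
  · intro h
    exact absurd (Finset.mem_univ _) h

theorem totalDegree_deh_form {R : Type} [CommRing R] [Nontrivial R] (c : Ix n d → R) :
    (deh s (form n d c)).totalDegree ≤ d := by
  rw [deh_form]
  refine totalDegree_finsetSum_le fun α _ => ?_
  refine (totalDegree_monomial_le _ _).trans ?_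
  have h := degree_eq s α.1
  rw [α.2] at h
  have h2 : (res s α.1).degree = (res s α.1).sum fun _ => id := rfl
  rw [← h2]
  omega

end res

section main

variable {n d : ℕ} {Λ : Type} [Field Λ] [CharZero Λ] (c : Ix n d → Λ)
  (s : Fin (n + 2)) (P : {j : Fin (n + 2) // j ≠ s} → Λ)

/-- the generators -/
noncomputable def zz (α : Ix n d) : Λ :=
  if 2 ≤ (res s α.1).degree then coeff (res s α.1) (tr P (deh s (form n d c)))
  else ∑ j, (res s α.1 j : Λ) * P j

theorem coeff_mem (hd : 2 ≤ d) (h0 : eval P (deh s (form n d c)) = 0)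
    (h1 : ∀ b, eval P (pderiv b (deh s (form n d c))) = 0)
    (A : Subalgebra ℚ Λ) (hA : ∀ α, zz c s P α ∈ A) (α : Ix n d) : c α ∈ A := by
  classical
  have hP : ∀ j, P j ∈ A := by
    intro j
    have hdeg : (Finsupp.single j 1 : {j : Fin (n + 2) // j ≠ s} →₀ ℕ).degree = 1 :=
      Finsupp.degree_single _ _
    have h := hA ⟨ext d s (Finsupp.single j 1), degree_ext s _ (by omega)⟩
    unfold zz at h
    rw [res_ext, if_neg (by omega), Finset.sum_eq_single j] at h
    · rwa [Finsupp.single_eq_same, Nat.cast_one, one_mul] at h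
    · intro i _ hne
      rw [Finsupp.single_eq_of_ne hne, Nat.cast_zero, zero_mul]
    · intro h'
      exact absurd (Finset.mem_univ _) h'
  rw [← coeff_deh_form s c α, ← tr_neg_tr P (deh s (form n d c))]
  refine coeff_tr_mem A _ (fun j => A.neg_mem (hP j)) _ (fun m => ?_) _
  by_cases hm : m.degree ≤ d
  · by_cases hm2 : 2 ≤ m.degree
    · have h := hA ⟨ext d s m, degree_ext s m hm⟩
      unfold zz at h
      rwa [res_ext, if_pos hm2] at h
    · have h3 : m = 0 ∨ ∃ j, m = Finsupp.single j 1 := by
        by_cases hm0 : m.degree = 0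
        · exact Or.inl ((Finsupp.degree_eq_zero_iff m).1 hm0)
        · have h7 : m ∈ {d : {j : Fin (n + 2) // j ≠ s} →₀ ℕ | d.degree = 1} := by
            change m.degree = 1
            omega
          rw [← Finsupp.range_single_one] at h7
          obtain ⟨j, hj⟩ := h7
          exact Or.inr ⟨j, hj.symm⟩
      rcases h3 with rfl | ⟨j, rfl⟩
      · rw [eval_zero_tr, h0]
        exact A.zero_mem
      · have h4 := coeff_pderiv (i := j) (tr P (deh s (form n d c))) 0
        rw [zero_add, Finsupp.zero_apply, Nat.cast_zero, zero_add, mul_one, pderiv_tr,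
          eval_zero_tr, h1] at h4
        rw [← h4]
        exact A.zero_mem
  · rw [coeff_eq_zero_of_totalDegree_lt]
    · exact A.zero_mem
    · have h5 := (totalDegree_tr_le P (deh s (form n d c))).trans (totalDegree_deh_form s c)
      have h6 : ∑ i ∈ m.support, m i = m.degree := rfl
      rw [h6]
      omega

theorem zz_zero : zz c s P (⟨ext d s 0, degree_ext s 0 (by simp)⟩ : Ix n d) = 0 := by
  unfold zz
  rw [res_ext, if_neg (by simp)]
  simp

end main

theorem ek5p : S_EK5P := by
  intro n d hd Λ _ _ c s P h0 h1 hc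
  have h := algInd_of_card (zz c s P) c hc (fun i => coeff_mem c s P hd h0 h1 _
    (fun α => Algebra.subset_adjoin (Set.mem_range_self α)) i) le_rfl
  exact h.ne_zero _ (zz_zero c s P)

theorem ek5 : S_EK5 := by
  classical
  intro n d hd Λ _ _ c s P h0 h1 h2 i hc
  let α0 : Ix n d := ⟨ext d s 0, degree_ext s 0 (by simp)⟩
  let z : {α : Ix n d // α ≠ α0} → Λ := fun α => zz c s P α.1
  have hz : AlgebraicIndependent ℚ z := by
    refine algInd_of_card z _ hc (fun j => coeff_mem c s P hd h0 h1 _ (fun α => ?_) j.1) ?_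
    · by_cases hα : α = α0
      · rw [hα, zz_zero]
        exact Subalgebra.zero_mem _
      · have h3 : zz c s P α ∈ Set.range z := ⟨(⟨α, hα⟩ : {α : Ix n d // α ≠ α0}), rfl⟩
        exact Algebra.subset_adjoin h3
    · rw [Nat.card_eq_fintype_card, Nat.card_eq_fintype_card, Fintype.card_subtype_compl,
        Fintype.card_subtype_compl]
      simp
  -- the indices of the quadratic part
  have hdeg : ∀ a b : {j : Fin (n + 2) // j ≠ s},
      (Finsupp.single a 1 + Finsupp.single b 1 : {j : Fin (n + 2) // j ≠ s} →₀ ℕ).degree = 2 := by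
    intro a b
    rw [map_add, Finsupp.degree_single, Finsupp.degree_single]
  let ix : {j : Fin (n + 2) // j ≠ s} → {j : Fin (n + 2) // j ≠ s} → {α : Ix n d // α ≠ α0} :=
    fun a b => ⟨⟨ext d s (Finsupp.single a 1 + Finsupp.single b 1),
      degree_ext s _ (by rw [hdeg]; exact hd)⟩, by
        intro h
        have h3 := congrArg (fun α : Ix n d => (res s α.1).degree) h
        simp only [α0, res_ext, hdeg] at h3
        simp at h3⟩
  have hix : ∀ a b, z (ix a b) =
      coeff (Finsupp.single a 1 + Finsupp.single b 1) (tr P (deh s (form n d c))) := by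
    intro a b
    change zz c s P (ix a b).1 = _
    unfold zz
    have h3 : res s (ix a b).1.1 = Finsupp.single a 1 + Finsupp.single b 1 := res_ext s _
    rw [h3, hdeg, if_pos le_rfl]
  let M : Matrix {j : Fin (n + 2) // j ≠ s} {j : Fin (n + 2) // j ≠ s}
      (MvPolynomial {α : Ix n d // α ≠ α0} ℚ) :=
    Matrix.of fun a b => C (((Finsupp.single a 1 : {j : Fin (n + 2) // j ≠ s} →₀ ℕ) b : ℚ) + 1) *
      X (ix a b)
  have hM : M.det ≠ 0 := by
    intro hM
    let v : {α : Ix n d // α ≠ α0} → ℚ := fun α => if ∃ a, α = ix a a then 1 else 0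
    have h3 := congrArg (eval v) hM
    rw [RingHom.map_det, map_zero] at h3
    have h4 : (eval v).mapMatrix M = Matrix.diagonal fun _ => (2 : ℚ) := by
      ext a b
      simp only [RingHom.mapMatrix_apply, Matrix.map_apply, M, Matrix.of_apply, map_mul, eval_C,
        eval_X, v]
      by_cases hab : a = b
      · subst hab
        rw [Matrix.diagonal_apply_eq, if_pos ⟨a, rfl⟩, Finsupp.single_eq_same]
        norm_num
      · rw [Matrix.diagonal_apply_ne _ hab, if_neg, mul_zero]
        rintro ⟨e, he⟩
        have h5 := congrArg (fun α : {α : Ix n d // α ≠ α0} => res s α.1.1) he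
        have h6 : (Finsupp.single a 1 + Finsupp.single b 1 : {j : Fin (n + 2) // j ≠ s} →₀ ℕ) =
            Finsupp.single e 1 + Finsupp.single e 1 := by
          have h7 : res s (ix a b).1.1 = Finsupp.single a 1 + Finsupp.single b 1 := res_ext s _
          have h8 : res s (ix e e).1.1 = Finsupp.single e 1 + Finsupp.single e 1 := res_ext s _
          rw [← h7, ← h8]
          exact h5
        have h9 := DFunLike.congr_fun h6 a
        have h10 := DFunLike.congr_fun h6 b
        simp only [Finsupp.add_apply, Finsupp.single_apply] at h9 h10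
        by_cases ha : e = a
        · by_cases hb : e = b
          · exact hab (ha.symm.trans hb)
          · simp [hab, hb] at h10
        · have hba : ¬ b = a := fun h => hab h.symm
          simp [hba, ha] at h9
    rw [h4, Matrix.det_diagonal, Finset.prod_const] at h3
    exact pow_ne_zero _ two_ne_zero h3
  apply hM
  apply hz.eq_zero_of_aeval_eq_zero
  rw [AlgHom.map_det]
  rw [← h2]
  congr 1
  ext a b
  simp only [AlgHom.mapMatrix_apply, Matrix.map_apply, M, Matrix.of_apply, map_mul, aeval_C,
    aeval_X, Hess]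
  rw [hix]
  have h3 : eval P (pderiv a (pderiv b (deh s (form n d c)))) =
      coeff (Finsupp.single a 1 + Finsupp.single b 1) (tr P (deh s (form n d c))) *
        (((Finsupp.single a 1 : {j : Fin (n + 2) // j ≠ s} →₀ ℕ) b : Λ) + 1) := by
    rw [← eval_zero_tr, ← pderiv_tr, coeff_pderiv, ← pderiv_tr, coeff_pderiv]
    simp
  rw [h3, mul_comm]
  congr 1
  rw [map_add, map_one, map_natCast]

end Pool.Agent.Q56.OD
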