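import Pool.Agent.Q40.OD.Stm2

/-! Project OD (helper40), job EK-6 (helper56): coprime equations for the forms with degenerate
reduction. -/

set_option autoImplicit false

namespace Pool.Agent.Q56.OD

open Pool.Agent.Q40.OD Pool.Agent.TH214.RM Pool.Agent.H918R2.Quad MvPolynomial

/-- the residue field at a prime of a `ℚ`-algebra -/
theorem exists_field {A : Type} [CommRing A] [Algebra ℚ A] (p : Ideal A) [p.IsPrime] :
    ∃ (Λ : Type) (_ : Field Λ) (_ : CharZero Λ) (φ : A →+* Λ), ∀ a, φ a = 0 ↔ a ∈ p := by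
  refine ⟨FractionRing (A ⧸ p), inferInstance, ?_,
    (algebraMap (A ⧸ p) (FractionRing (A ⧸ p))).comp (Ideal.Quotient.mk p), fun a => ?_⟩
  · exact charZero_of_injective_ringHom (RingHom.injective
      (((algebraMap (A ⧸ p) (FractionRing (A ⧸ p))).comp (Ideal.Quotient.mk p)).comp
        (algebraMap ℚ A)))
  · rw [RingHom.comp_apply, map_eq_zero_iff _ (IsFractionRing.injective (A ⧸ p)
      (FractionRing (A ⧸ p))), Ideal.Quotient.eq_zero_iff_mem]

theorem eval₂_int_eq {τ A Λ : Type} [CommRing A] [CommRing Λ] [Algebra ℚ A]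
    (φ : A →+* Λ) (x : τ → A) (f : MvPolynomial τ ℤ) :
    eval₂ (Int.castRingHom Λ) (fun i => φ (x i)) f =
      φ (aeval x (map (Int.castRingHom ℚ) f)) := by
  have h : eval₂Hom (Int.castRingHom Λ) (fun i => φ (x i)) =
      φ.comp ((aeval x : MvPolynomial τ ℚ →ₐ[ℚ] A).toRingHom.comp
        (map (Int.castRingHom ℚ))) := by
    apply MvPolynomial.ringHom_ext
    · intro r
      simp
    · intro i
      simp
  exact DFunLike.congr_fun h f

theorem elim1 {ι κ : Type} [Fintype κ] (σ : κ → Type)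
    (Z : ∀ s, Set (MvPolynomial (ι ⊕ σ s) ℤ)) (q : Ideal (MvPolynomial ι ℚ)) [q.IsPrime]
    (H : ∀ (s : κ) (Λ : Type) [Field Λ] [CharZero Λ] (c : ι → Λ) (P : σ s → Λ),
      (∀ f ∈ Z s, eval₂ (Int.castRingHom Λ) (Sum.elim c P) f = 0) →
        ∃ G : MvPolynomial ι ℚ, aeval c G = 0 ∧ G ∉ q) :
    ∃ G : MvPolynomial ι ℤ, map (Int.castRingHom ℚ) G ∉ q ∧
      ∀ s, rename Sum.inl (map (Int.castRingHom ℚ) G) ∈
        (Ideal.span (map (Int.castRingHom ℚ) '' Z s)).radical := by
  classical
  have key : ∀ s, ∃ G : MvPolynomial ι ℚ, G ∉ q ∧ rename Sum.inl G ∈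
      (Ideal.span (map (Int.castRingHom ℚ) '' Z s)).radical := by
    intro s
    by_contra hcon
    push Not at hcon
    have h1 : (Ideal.span (map (Int.castRingHom ℚ) '' Z s)).comap
        (rename (Sum.inl : ι → ι ⊕ σ s) : MvPolynomial ι ℚ →ₐ[ℚ] _).toRingHom ≤ q := by
      intro G hG
      by_contra h
      exact hcon G h (Ideal.le_radical hG)
    obtain ⟨p, hp, hpq⟩ := Ideal.exists_minimalPrimes_le h1
    obtain ⟨p', hp', hpp⟩ := Ideal.exists_minimalPrimes_comap_eq _ p hp
    have hprime : p'.IsPrime := hp'.1.1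
    have hJ := hp'.1.2
    obtain ⟨Λ, _, _, φ, hφ⟩ := exists_field p'
    obtain ⟨G, hG0, hGq⟩ := H s Λ (fun i => φ (X (Sum.inl i))) (fun j => φ (X (Sum.inr j))) (by
      intro f hf
      have h2 : (Sum.elim (fun i => φ (X (Sum.inl i))) (fun j => φ (X (Sum.inr j))) :
          ι ⊕ σ s → Λ) = fun k => φ (X k) := by
        funext k
        cases k <;> rfl
      rw [h2, eval₂_int_eq, aeval_X_left, AlgHom.id_apply, hφ]
      exact hJ (Ideal.subset_span ⟨f, hf, rfl⟩))
    apply hGq
    apply hpq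
    rw [← hpp]
    change rename Sum.inl G ∈ p'
    rw [← hφ, ← hG0]
    have h3 : φ.comp (rename (Sum.inl : ι → ι ⊕ σ s) : MvPolynomial ι ℚ →ₐ[ℚ] _).toRingHom =
        (aeval (fun i => φ (X (Sum.inl i))) : MvPolynomial ι ℚ →ₐ[ℚ] Λ).toRingHom := by
      apply MvPolynomial.ringHom_ext
      · intro r
        exact DFunLike.congr_fun (Subsingleton.elim (((φ.comp
          (rename (Sum.inl : ι → ι ⊕ σ s) : MvPolynomial ι ℚ →ₐ[ℚ] _).toRingHom)).comp C)
          (((aeval (fun i => φ (X (Sum.inl i))) :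
            MvPolynomial ι ℚ →ₐ[ℚ] Λ).toRingHom).comp C)) r
      · intro i
        simp
    exact DFunLike.congr_fun h3 G
  choose g hg hg' using key
  obtain ⟨a, ha, y, hy⟩ := clear_poly (nonZeroDivisors ℤ) (∏ s, g s)
  have hy' : map (Int.castRingHom ℚ) y = C (a : ℚ) * ∏ s, g s := by
    rw [← eq_intCast (algebraMap ℤ ℚ) a]
    exact hy
  have ha0 : (a : ℚ) ≠ 0 := Int.cast_ne_zero.2 (nonZeroDivisors.ne_zero ha)
  refine ⟨y, ?_, fun s => ?_⟩
  · rw [hy']
    intro h
    rcases (Ideal.IsPrime.mem_or_mem inferInstance h) with h | h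
    · have h1 : (1 : MvPolynomial ι ℚ) ∈ q := by
        have h2 := q.mul_mem_left (C (a : ℚ)⁻¹) h
        rwa [← C_mul, inv_mul_cancel₀ ha0, C_1] at h2
      exact (Ideal.ne_top_iff_one q).1 (Ideal.IsPrime.ne_top inferInstance) h1
    · obtain ⟨s, -, hs⟩ := (Ideal.IsPrime.prod_mem_iff).1 h
      exact hg s hs
  · rw [hy', map_mul, map_prod, ← Finset.mul_prod_erase _ _ (Finset.mem_univ s), ← mul_assoc,
      mul_comm (rename Sum.inl (C (a : ℚ)))]
    rw [mul_assoc]
    exact Ideal.mul_mem_right _ _ (hg' s)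

section univ

variable {n d : ℕ} {R R' : Type} [CommRing R] [CommRing R']

/-- the equations of a degenerate singular point in the chart `s` -/
noncomputable def Zs (s : Fin (n + 2)) (c : Ix n d → R) (P : {j : Fin (n + 2) // j ≠ s} → R) :
    Set R :=
  insert (eval P (deh s (form n d c)))
    (insert ((Hess (deh s (form n d c))).map (eval P)).det
      (Set.range fun b => eval P (pderiv b (deh s (form n d c)))))

theorem map_form (φ : R →+* R') (c : Ix n d → R) :
    map φ (form n d c) = form n d (fun α => φ (c α)) := by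
  unfold form
  rw [map_sum]
  exact Finset.sum_congr rfl fun α _ => map_monomial _ _ _

theorem eval_map_comp {τ : Type} (φ : R →+* R') (P : τ → R) (f : MvPolynomial τ R) :
    eval (fun j => φ (P j)) (map φ f) = φ (eval P f) := by
  rw [eval_map]
  exact (eval₂_comp_left φ (RingHom.id R) P f).symm

theorem image_Zs (φ : R →+* R') (s : Fin (n + 2)) (c : Ix n d → R)
    (P : {j : Fin (n + 2) // j ≠ s} → R) :
    φ '' Zs s c P = Zs s (fun α => φ (c α)) (fun j => φ (P j)) := by
  unfold Zs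
  rw [Set.image_insert_eq, Set.image_insert_eq, ← Set.range_comp, ← map_form, ← map_deh,
    eval_map_comp]
  have h1 : ((Hess (map φ (deh s (form n d c)))).map (eval fun j => φ (P j))).det =
      φ ((Hess (deh s (form n d c))).map (eval P)).det := by
    rw [RingHom.map_det]
    congr 1
    ext a b
    simp only [Hess, Matrix.map_apply, Matrix.of_apply, RingHom.mapMatrix_apply, pderiv_map]
    exact eval_map_comp φ P _
  have h2 : (fun b => eval (fun j => φ (P j)) (pderiv b (map φ (deh s (form n d c))))) =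
      φ ∘ fun b => eval P (pderiv b (deh s (form n d c))) := by
    funext b
    rw [pderiv_map]
    exact eval_map_comp φ P _
  rw [h1, h2]

/-- the universal equations -/
noncomputable def Zu (n d : ℕ) (s : Fin (n + 2)) :
    Set (MvPolynomial (Ix n d ⊕ {j : Fin (n + 2) // j ≠ s}) ℤ) :=
  Zs s (fun α => X (Sum.inl α)) (fun j => X (Sum.inr j))

end univ

theorem ek6 (h4 : S_EK4) (h5 : S_EK5) : S_EK6 := by
  classical
  intro n d hd
  let J : ∀ s : Fin (n + 2), Ideal (MvPolynomial (Ix n d ⊕ {j : Fin (n + 2) // j ≠ s}) ℚ) :=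
    fun s => Ideal.span (map (Int.castRingHom ℚ) '' Zu n d s)
  let I : Ideal (MvPolynomial (Ix n d) ℤ) := ⨅ s, ((J s).radical.comap
    ((rename (Sum.inl : Ix n d → Ix n d ⊕ {j : Fin (n + 2) // j ≠ s}) :
      MvPolynomial (Ix n d) ℚ →ₐ[ℚ] _).toRingHom.comp (map (Int.castRingHom ℚ))))
  have hI : ∀ G, G ∈ I ↔ ∀ s, rename Sum.inl (map (Int.castRingHom ℚ) G) ∈ (J s).radical := by
    intro G
    simp only [I, Ideal.mem_iInf, Ideal.mem_comap]
    rfl
  obtain ⟨S, hS⟩ : I.FG := IsNoetherian.noetherian I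
  have hne : Nonempty (Ix n d) := ⟨⟨Finsupp.single 0 d, Finsupp.degree_single _ _⟩⟩
  have hcl : ∀ (s : Fin (n + 2)) (G : MvPolynomial (Ix n d) ℤ), G ∈ I → ∃ a e : ℕ, 0 < a ∧
      C (a : ℤ) * rename Sum.inl G ^ e ∈ Ideal.span (Zu n d s) := by
    intro s G hG
    obtain ⟨e, he⟩ := (hI G).1 hG s
    have he' : map (algebraMap ℤ ℚ) (rename Sum.inl G ^ e) ∈
        Ideal.span (map (algebraMap ℤ ℚ) '' Zu n d s) := by
      have h1 : map (algebraMap ℤ ℚ) (rename Sum.inl G ^ e :
          MvPolynomial (Ix n d ⊕ {j : Fin (n + 2) // j ≠ s}) ℤ) =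
          rename Sum.inl (map (Int.castRingHom ℚ) G) ^ e := by
        rw [map_pow, map_rename]
        rfl
      rw [h1]
      exact he
    obtain ⟨a, ha, y, hy, hya⟩ := clear_span (nonZeroDivisors ℤ) _ _ he'
    rw [← map_C, ← map_mul] at hya
    have hinj : Function.Injective (map (algebraMap ℤ ℚ) :
        MvPolynomial (Ix n d ⊕ {j : Fin (n + 2) // j ≠ s}) ℤ → _) :=
      map_injective _ (RingHom.injective_int _)
    have h2 := hinj hya
    rw [h2] at hy
    refine ⟨a.natAbs, e, Int.natAbs_pos.2 (nonZeroDivisors.ne_zero ha), ?_⟩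
    rcases Int.natAbs_eq a with h3 | h3
    · rw [← h3]
      exact hy
    · have h4 : ((a.natAbs : ℕ) : ℤ) = -a := by omega
      rw [h4, C_neg, neg_mul]
      exact Ideal.neg_mem_iff _ |>.2 hy
  choose! A e hA hAe using hcl
  refine ⟨S, ∑ G ∈ S, ∑ s, A s G, ?_, ?_⟩
  · intro P₀ hP₀
    by_contra hnu
    obtain ⟨P₁, hP₁, hdvd, hnu1⟩ : ∃ P₁ : MvPolynomial (Ix n d) ℚ, (Ideal.span {P₁}).IsPrime ∧
        P₁ ∣ P₀ ∧ ¬ IsUnit P₁ := by
      by_cases h0 : P₀ = 0
      · refine ⟨0, ?_, by rw [h0], not_isUnit_zero⟩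
        rw [Ideal.span_singleton_eq_bot.2 rfl]
        exact Ideal.isPrime_bot
      · obtain ⟨P₁, hirr, hd1⟩ := WfDvdMonoid.exists_irreducible_factor hnu h0
        exact ⟨P₁, (Ideal.span_singleton_prime hirr.ne_zero).2 hirr.prime, hd1, hirr.not_isUnit⟩
    obtain ⟨G, hG1, hG2⟩ := elim1 (fun s : Fin (n + 2) => {j : Fin (n + 2) // j ≠ s}) (Zu n d)
      (Ideal.span {P₁}) (by
        intro s Λ _ _ c P hz
        have himg : ∀ f ∈ Zs s c P, f = 0 := by
          have h1 := image_Zs (eval₂Hom (Int.castRingHom Λ) (Sum.elim c P)) s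
            (fun α : Ix n d => X (Sum.inl α)) (fun j => X (Sum.inr j))
          simp only [eval₂Hom_X', Sum.elim_inl, Sum.elim_inr] at h1
          intro f hf
          rw [← h1] at hf
          obtain ⟨g, hg, rfl⟩ := hf
          exact hz g hg
        have h6 := h5 hd c s P (himg _ (Set.mem_insert _ _))
          (fun b => himg _ (Set.mem_insert_of_mem _ (Set.mem_insert_of_mem _ ⟨b, rfl⟩)))
          (himg _ (Set.mem_insert_of_mem _ (Set.mem_insert _ _)))
        by_contra hcon
        push Not at hcon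
        exact hnu1 (h4 c h6 P₁ fun G hG => Ideal.mem_span_singleton.1 (hcon G hG)))
    apply hG1
    have hGI : G ∈ I := (hI G).2 hG2
    rw [← hS] at hGI
    have h7 : Ideal.span (S : Set (MvPolynomial (Ix n d) ℤ)) ≤
        (Ideal.span {P₁}).comap (map (Int.castRingHom ℚ)) := by
      rw [Ideal.span_le]
      intro G' hG'
      exact Ideal.mem_span_singleton.2 (hdvd.trans (hP₀ G' hG'))
    exact h7 hGI
  · intro c p hp hN hdeg G hG
    have hGI : G ∈ I := by
      rw [← hS]
      exact Ideal.subset_span hG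
    unfold Nondeg at hdeg
    push Not at hdeg
    obtain ⟨s, Q, hQ, hQp, h1, h2, h3⟩ := hdeg
    have hle : A s G ≤ ∑ G ∈ S, ∑ s, A s G :=
      (Finset.single_le_sum (f := fun s => A s G) (fun _ _ => Nat.zero_le _)
        (Finset.mem_univ s)).trans
        (Finset.single_le_sum (f := fun G => ∑ s, A s G) (fun _ _ => Nat.zero_le _) hG)
    let θ : MvPolynomial (Ix n d ⊕ {j : Fin (n + 2) // j ≠ s}) ℤ →+*
        MvPolynomial {j : Fin (n + 2) // j ≠ s} ℤ :=
      eval₂Hom C (Sum.elim (fun α => C (c α)) X)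
    have himg : θ '' Zu n d s ⊆ Q := by
      have h5 := image_Zs θ s (fun α : Ix n d => X (Sum.inl α)) (fun j => X (Sum.inr j))
      have h6 : (fun α : Ix n d => θ (X (Sum.inl α))) = fun α => C (c α) := by
        funext α
        simp only [θ, eval₂Hom_X', Sum.elim_inl]
      have h7 : (fun j => θ (X (Sum.inr j))) = X := by
        funext j
        simp only [θ, eval₂Hom_X', Sum.elim_inr]
      rw [h6, h7] at h5
      change θ '' Zs s _ _ ⊆ Q
      rw [h5]
      have h8 : ∀ f : MvPolynomial {j : Fin (n + 2) // j ≠ s} ℤ, eval X (map C f) = f := by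
        intro f
        rw [eval_map]
        exact eval₂_eta f
      unfold Zs
      rw [← map_form, ← map_deh, h8]
      rintro f (rfl | rfl | ⟨b, rfl⟩)
      · exact h1
      · have h9 : (Hess (map C (deh s (form n d c)))).map (eval X) =
            Hess (deh s (form n d c)) := by
          ext1 a b
          simp only [Hess, Matrix.map_apply, Matrix.of_apply, pderiv_map]
          exact h8 _
        rw [h9]
        exact h3
      · change eval X (pderiv b (map C (deh s (form n d c)))) ∈ Q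
        rw [pderiv_map, h8]
        exact h2 b
    have h10 : Ideal.span (Zu n d s) ≤ Q.comap θ := by
      rw [Ideal.span_le]
      intro f hf
      exact himg ⟨f, hf, rfl⟩
    have h11 : θ (C (A s G : ℤ) * rename Sum.inl G ^ e s G) ∈ Q := h10 (hAe s G hGI)
    have h12 : θ (rename Sum.inl G) = C (eval c G) := by
      simp only [θ, coe_eval₂Hom]
      rw [eval₂_rename]
      have h13 : (Sum.elim (fun α => C (c α)) X :
          Ix n d ⊕ {j : Fin (n + 2) // j ≠ s} → MvPolynomial {j : Fin (n + 2) // j ≠ s} ℤ) ∘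
          Sum.inl = C ∘ c := rfl
      rw [h13]
      exact (eval₂_comp_left C (RingHom.id ℤ) c G).symm
    have h14 : θ (C (A s G : ℤ)) = C (A s G : ℤ) := by
      simp only [θ, eval₂Hom_C]
    rw [map_mul, map_pow, h12, h14, ← C_pow, ← C_mul, hQp, Ideal.mem_span_singleton] at h11
    have hpp : Prime (p : ℤ) := Nat.prime_iff_prime_int.1 hp
    rcases hpp.dvd_or_dvd h11 with h15 | h15
    · have h16 := Nat.le_of_dvd (hA s G hGI) (Int.natCast_dvd_natCast.1 h15)
      omega
    · exact hpp.dvd_of_dvd_pow h15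

end Pool.Agent.Q56.OD
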